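import Mathlib

namespace Pool.Agent.Results.MP_0e3695_co.HighDegree

open Finset

/-- The neighbours of `v` joined to `v` by an edge of colour `γ`. -/
def nbr {V : Type} (G : SimpleGraph V) (c : G.edgeSet → Bool) (γ : Bool) (v : V) : Set V :=
  {x | ∃ h : G.Adj v x, c ⟨s(v, x), h⟩ = γ}

/-- The partition with parts `f ⁻¹ {i}`, `i : Fin 3`, is a majority partition. -/
def Majority {V : Type} (G : SimpleGraph V) (c : G.edgeSet → Bool) (f : V → Fin 3) : Prop :=
  ∀ γ v, 2 * (nbr G c γ v ∩ {x | f x = f v}).ncard ≤ (nbr G c γ v).ncard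

section
variable (k : ℕ)

abbrev I := ZMod (2 * k + 3)
abbrev H := Fin (3 * (k + 2))
abbrev T := {S : Finset (H k) // S.card = k + 2}
abbrev W := H k ⊕ (T k × Bool × I k)

variable {k}

def A (γ : Bool) : W k → W k → Prop
  | Sum.inl _, Sum.inl _ => False
  | Sum.inl h, Sum.inr (p, t, _) => h ∈ p.1 ∧ t ≠ γ
  | Sum.inr (p, t, _), Sum.inl h => h ∈ p.1 ∧ t ≠ γ
  | Sum.inr (p, t, i), Sum.inr (q, s, j) => p = q ∧
      (if t = s then t = γ ∧ i ≠ j else if γ then i = j else if t then i = j + 1 else j = i + 1)

theorem A_symm (γ : Bool) (u v : W k) : A γ u v ↔ A γ v u := by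
  rcases u with h | ⟨p, t, i⟩ <;> rcases v with h' | ⟨q, s, j⟩ <;> simp only [A]
  cases γ <;> cases t <;> cases s <;> simp [eq_comm]

theorem one_ne : (1 : I k) ≠ 0 := by
  have : Fact (1 < 2 * k + 3) := ⟨by omega⟩
  exact one_ne_zero

theorem A_excl (u v : W k) : ¬ (A true u v ∧ A false u v) := by
  have := one_ne (k := k)
  rcases u with h | ⟨p, t, i⟩ <;> rcases v with h' | ⟨q, s, j⟩ <;> simp only [A]
  · simp
  · cases s <;> simp
  · cases t <;> simp
  · cases t <;> cases s <;> simp <;> rintro _ rfl _ <;> simpa using this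

def G (k : ℕ) : SimpleGraph (W k) where
  Adj u v := A true u v ∨ A false u v
  symm := ⟨fun u v h => by rwa [A_symm true v u, A_symm false v u]⟩
  loopless := ⟨by rintro (h | ⟨p, t, i⟩) <;> simp [A]⟩

open Classical in
noncomputable def c (e : (G k).edgeSet) : Bool :=
  Sym2.lift ⟨fun u v => decide (A true u v), fun u v => by simp only [A_symm true u v]⟩ e.1

theorem nbr_eq (γ : Bool) (v : W k) : nbr (G k) c γ v = {x | A γ v x} := by
  ext x
  have := A_excl v x
  simp only [nbr, c, Sym2.lift_mk, G, Set.mem_ofPred_eq, exists_prop]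
  cases γ <;> simp <;> tauto

/-- the cross neighbour of `(p,t,i)` in its own colour `t` -/
def out (t : Bool) (i : I k) : I k := if t then i else i + 1
/-- the cross neighbour of `(p,t,i)` in the colour `!t` -/
def inn (t : Bool) (i : I k) : I k := if t then i - 1 else i

theorem own (p : T k) (t : Bool) (i : I k) : {x | A t (Sum.inr (p, t, i)) x} =
    ↑(insert (Sum.inr (p, !t, out t i))
      ((univ.erase i).image (fun j => Sum.inr (p, t, j))) : Finset (W k)) := by
  ext (h | ⟨q, s, j⟩)
  · simp [A]
  · cases t <;> cases s <;> simp [A, out] <;> grind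

theorem oth (p : T k) (t : Bool) (i : I k) : {x | A (!t) (Sum.inr (p, t, i)) x} =
    ↑(insert (Sum.inr (p, !t, inn t i)) (p.1.image Sum.inl) : Finset (W k)) := by
  ext (h | ⟨q, s, j⟩)
  · simp [A]
    exact Iff.rfl
  · cases t <;> cases s <;> simp [A, inn] <;> grind

theorem own_card (p : T k) (t : Bool) (i : I k) :
    {x | A t (Sum.inr (p, t, i)) x}.ncard = 2 * k + 3 := by
  rw [own, Set.ncard_coe_finset, card_insert_of_notMem (by simp),
    card_image_of_injective _ (fun a b h => by simpa using h), card_erase_of_mem (mem_univ _)]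
  simp

theorem oth_card (p : T k) (t : Bool) (i : I k) :
    {x | A (!t) (Sum.inr (p, t, i)) x}.ncard = k + 3 := by
  rw [oth, Set.ncard_coe_finset, card_insert_of_notMem (by simp),
    card_image_of_injective _ Sum.inl_injective, p.2]

theorem deg_ge (γ : Bool) (v : W k) : k ≤ {x | A γ v x}.ncard := by
  rcases v with h | ⟨p, t, i⟩
  · obtain ⟨S, hS, hc⟩ := exists_superset_card_eq (s := ({h} : Finset (H k))) (n := k + 2)
      (by simp) (by simp)
    have : (↑(univ.image (fun j : I k => (Sum.inr (⟨S, hc⟩, !γ, j) : W k))) : Set (W k)) ⊆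
        {x | A γ (Sum.inl h) x} := by
      intro x hx
      simp only [coe_image, coe_univ, Set.image_univ, Set.mem_range] at hx
      obtain ⟨j, rfl⟩ := hx
      exact ⟨hS (mem_singleton_self h), by simp⟩
    have h2 := Set.ncard_le_ncard this (Set.toFinite _)
    rw [Set.ncard_coe_finset, card_image_of_injective _ (fun a b h => by simpa using h)] at h2
    simp at h2
    omega
  · by_cases e : γ = t
    · rw [e, own_card]; omega
    · rw [show γ = !t by cases γ <;> cases t <;> simp_all, oth_card]; omega

theorem no_maj (f : W k → Fin 3) (hf : Majority (G k) c f) : False := by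
  obtain ⟨b, _, hb⟩ := exists_le_card_fiber_of_mul_le_card_of_maps_to
    (s := (univ : Finset (H k))) (t := (univ : Finset (Fin 3))) (f := fun h => f (Sum.inl h))
    (n := k + 2) (fun _ _ => mem_univ _) univ_nonempty (by simp)
  obtain ⟨S, hS, hc⟩ := exists_subset_card_eq hb
  let p : T k := ⟨S, hc⟩
  let g : Bool → I k → Fin 3 := fun t i => f (Sum.inr (p, t, i))
  have e1 : ∀ t i, g t i ≠ b := by
    intro t i h
    have h1 := hf (!t) (Sum.inr (p, t, i))
    rw [nbr_eq, oth_card] at h1
    have : (↑(S.image (Sum.inl : H k → W k)) : Set (W k)) ⊆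
        {x | A (!t) (Sum.inr (p, t, i)) x} ∩ {x | f x = f (Sum.inr (p, t, i))} := by
      intro x hx
      simp only [coe_image, Set.mem_image, mem_coe] at hx
      obtain ⟨y, hy, rfl⟩ := hx
      exact ⟨⟨hy, by simp⟩, ((mem_filter.mp (hS hy)).2).trans h.symm⟩
    have h2 := Set.ncard_le_ncard this (Set.toFinite _)
    rw [Set.ncard_coe_finset, card_image_of_injective _ Sum.inl_injective] at h2
    omega
  let M : Bool → Fin 3 → Finset (I k) := fun t a => univ.filter (fun j => g t j = a)
  have e2 : ∀ t i, k + 2 ≤ (M t (g t i)).card → g (!t) (out t i) ≠ g t i := by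
    intro t i hM h
    have h1 := hf t (Sum.inr (p, t, i))
    rw [nbr_eq, own_card] at h1
    have : (↑(insert (Sum.inr (p, !t, out t i))
        (((M t (g t i)).erase i).image (fun j => Sum.inr (p, t, j))) : Finset (W k)) :
        Set (W k)) ⊆
        {x | A t (Sum.inr (p, t, i)) x} ∩ {x | f x = f (Sum.inr (p, t, i))} := by
      rw [own]
      intro x hx
      simp only [coe_insert, coe_image, Set.mem_insert_iff, Set.mem_image, mem_coe] at hx
      rcases hx with rfl | ⟨j, hj, rfl⟩
      · exact ⟨by simp, h⟩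
      · rw [mem_erase] at hj
        exact ⟨by simp [hj.1], (mem_filter.mp hj.2).2⟩
    have h2 := Set.ncard_le_ncard this (Set.toFinite _)
    rw [Set.ncard_coe_finset, card_insert_of_notMem (by simp),
      card_image_of_injective _ (fun a b h => by simpa using h),
      card_erase_of_mem (by simp [M])] at h2
    omega
  obtain ⟨x, y, hxy, hall⟩ : ∃ x y : Fin 3, x ≠ y ∧ ∀ z, z ≠ b → z = x ∨ z = y := by
    have : ∀ b : Fin 3, ∃ x y : Fin 3, x ≠ y ∧ ∀ z, z ≠ b → z = x ∨ z = y := by decide
    exact this b
  have main : ∀ x y : Fin 3, x ≠ y → (∀ z, z ≠ b → z = x ∨ z = y) →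
      k + 2 ≤ (M true x).card → ∀ i, g true i = x := by
    intro x y hxy hall hM
    have a1 : ∀ i, g true i = x → g false i = y := by
      intro i hi
      have := e2 true i (by rw [hi]; exact hM)
      rw [hi] at this
      exact (hall _ (e1 false i)).resolve_left this
    have a2 : k + 2 ≤ (M false y).card := by
      refine hM.trans (card_le_card (fun i hi => ?_))
      simp only [M, mem_filter, mem_univ, true_and] at hi ⊢
      exact a1 i hi
    have a3 : ∀ i, g true i = x → g true (i + 1) = x := by
      intro i hi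
      have := e2 false i (by rw [a1 i hi]; exact a2)
      rw [a1 i hi] at this
      exact (hall _ (e1 true (i + 1))).resolve_right this
    obtain ⟨i0, hi0⟩ := card_pos.mp (show 0 < (M true x).card by omega)
    have a4 : ∀ n : ℕ, g true (i0 + n) = x := by
      intro n
      induction n with
      | zero => simpa [M] using hi0
      | succ n ih => rw [Nat.cast_succ, ← add_assoc]; exact a3 _ ih
    intro i
    have := a4 (i - i0).val
    rwa [ZMod.natCast_zmod_val, add_sub_cancel] at this
  have fin : ∀ x y : Fin 3, x ≠ y → (∀ z, z ≠ b → z = x ∨ z = y) →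
      ¬ k + 2 ≤ (M true x).card := by
    intro x y hxy hall hM
    have hall' := main x y hxy hall hM
    have h1 := hf true (Sum.inr (p, true, 0))
    rw [nbr_eq, own_card] at h1
    have : (↑((univ.erase (0 : I k)).image (fun j => (Sum.inr (p, true, j) : W k))) : Set (W k)) ⊆
        {x | A true (Sum.inr (p, true, 0)) x} ∩ {x | f x = f (Sum.inr (p, true, 0))} := by
      rw [own]
      intro z hz
      simp only [coe_image, Set.mem_image, mem_coe] at hz
      obtain ⟨j, hj, rfl⟩ := hz
      rw [mem_erase] at hj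
      exact ⟨by simp [hj.1], (hall' j).trans (hall' 0).symm⟩
    have h2 := Set.ncard_le_ncard this (Set.toFinite _)
    rw [Set.ncard_coe_finset, card_image_of_injective _ (fun a b h => by simpa using h),
      card_erase_of_mem (mem_univ _)] at h2
    simp at h2
    omega
  have h1 := fin x y hxy hall
  have h2 := fin y x hxy.symm (fun z hz => (hall z hz).symm)
  have h3 : (univ : Finset (I k)) ⊆ M true x ∪ M true y := by
    intro i _
    simpa [M] using hall _ (e1 true i)
  have h4 := (card_le_card h3).trans (card_union_le _ _)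
  simp at h4
  omega

end

theorem result (k : ℕ) : ∃ (V : Type) (_ : Fintype V) (G : SimpleGraph V)
    (c : G.edgeSet → Bool), (∀ γ v, k ≤ (nbr G c γ v).ncard) ∧
      ¬ ∃ f : V → Fin 3, Majority G c f :=
  ⟨W k, inferInstance, G k, c, fun γ v => by rw [nbr_eq]; exact deg_ge γ v,
    fun ⟨f, hf⟩ => no_maj f hf⟩

end Pool.Agent.Results.MP_0e3695_co.HighDegree
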